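import Pool.Agent.AltSig37.Count

/-!
MP_d358e4_nt (helper37): all odd `n` divisible by `σ̃(n)`.
-/

set_option autoImplicit false

namespace Pool.Agent.AltSig37

open Finset

/-- `n` is odd and `n = K σ̃(n)`. -/
def OddSol (K n : ℕ) : Prop := Odd n ∧ (n : ℤ) = K * sig n

theorem OddSol.sol {K n : ℕ} (h : OddSol K n) : SolF K n := by
  refine ⟨h.1, fun p hp => exp_even h.1 h.2 hp, ?_⟩
  have := congrArg (fun z : ℤ => (z : ℚ)) h.2
  simpa using this

/-- The multiplier is small. -/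
theorem OddSol.K_le {K n : ℕ} (h : OddSol K n) : K ≤ n.primeFactors.card + 1 := by
  have hd := dat h.1 h.2
  have h1 := hd.ineqA (S := ∅) (T := ∅) (Finset.Subset.refl _) (empty_subset _)
  rw [U, M, Finset.sdiff_self, prod_empty, prod_empty, prod_empty, prod_empty, sdiff_empty,
    mul_one, mul_one, mul_one, one_mul] at h1
  have h2 := prod_le_aux 3 n.primeFactors fun p hp => hd.three hp
  have h3 : 0 < ∏ p ∈ n.primeFactors, p := prod_pos fun p hp => hd.ppos hp
  have h4 : (3 * K) * ∏ p ∈ n.primeFactors, p ≤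
      (3 + n.primeFactors.card) * ∏ p ∈ n.primeFactors, p := by
    calc (3 * K) * ∏ p ∈ n.primeFactors, p = 3 * (K * ∏ p ∈ n.primeFactors, p) := by ring
      _ ≤ 3 * ∏ p ∈ n.primeFactors, (p + 1) := Nat.mul_le_mul_left _ h1
      _ ≤ _ := h2
  have h5 := Nat.le_of_mul_le_mul_right h4 h3
  omega

theorem card_le_log {n x : ℕ} (hn : n ≠ 0) (hx : n ≤ x) :
    n.primeFactors.card ≤ Nat.log 2 x := by
  refine Nat.le_log_of_pow_le (by norm_num) (le_trans ?_ hx)
  calc 2 ^ n.primeFactors.card = ∏ _p ∈ n.primeFactors, 2 := by rw [prod_const]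
    _ ≤ ∏ p ∈ n.primeFactors, p :=
        prod_le_prod' fun p hp => (Nat.prime_of_mem_primeFactors hp).two_le
    _ ≤ n := Nat.le_of_dvd (Nat.pos_of_ne_zero hn) (Nat.prod_primeFactors_dvd n)

/-- An odd multiple of its `σ̃`. -/
theorem exists_K {n : ℕ} (hn : Odd n) (h : sig n ∣ (n : ℤ)) : ∃ K : ℕ, OddSol K n := by
  have hn0 : n ≠ 0 := by
    rintro rfl
    simp at hn
  obtain ⟨c, hc⟩ := h
  -- all exponents are even
  have hodd : Odd (n : ℤ) := by exact_mod_cast hn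
  have hev : ∀ p ∈ n.primeFactors, Even (n.factorization p) := by
    intro p hp
    by_contra ho
    rw [Nat.not_even_iff_odd] at ho
    have hpo : Odd p := Odd.of_dvd_nat hn (Nat.dvd_of_mem_primeFactors hp)
    have h2 : (p : ZMod 2) = -1 := by
      have : (p : ZMod 2) = 1 := (ZMod.natCast_eq_one_iff_odd).2 hpo
      rw [this]
      decide
    have h1 : ((sp p (n.factorization p) : ℤ) : ZMod 2) = 0 := by
      rw [sp_cast]
      have h3 : ∀ j ∈ Finset.range (n.factorization p + 1),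
          (-1 : ZMod 2) ^ j * (-1) ^ (n.factorization p - j) = 1 := by
        intro j hj
        have h4 : j ≤ n.factorization p := Nat.lt_succ_iff.1 (mem_range.1 hj)
        rw [← pow_add, Nat.add_sub_cancel' h4, ho.neg_one_pow]
        decide
      rw [h2, sum_congr rfl h3, sum_const, card_range, nsmul_eq_mul, mul_one]
      exact (ZMod.natCast_eq_zero_iff_even).2 (Odd.add_one ho)
    have h5 : (2 : ℤ) ∣ sp p (n.factorization p) := (ZMod.intCast_zmod_eq_zero_iff_dvd _ 2).1 h1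
    have h6 : (2 : ℤ) ∣ n := by
      rw [hc]
      exact (h5.trans (dvd_prod_of_mem (fun p => sp p (n.factorization p)) hp)).mul_right c
    rw [← Int.not_even_iff_odd] at hodd
    exact hodd (even_iff_two_dvd.2 h6)
  have hpos := sig_pos hn hev
  have hc0 : 0 ≤ c := by
    by_contra hneg
    have h7 : sig n * c < 0 := mul_neg_of_pos_of_neg hpos (not_le.1 hneg)
    rw [← hc] at h7
    have : (0 : ℤ) ≤ n := Int.natCast_nonneg n
    omega
  refine ⟨c.toNat, hn, ?_⟩
  rw [Int.toNat_of_nonneg hc0, mul_comm]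
  exact hc

/-- The number of odd `n ≤ x` divisible by `σ̃(n)` is `O(x^ε)`. -/
theorem count_all (ε : ℝ) (hε : 0 < ε) : ∃ C : ℝ, ∀ (x : ℕ) (A : Finset ℕ),
    (∀ b ∈ A, (Odd b ∧ sig b ∣ (b : ℤ)) ∧ b ≤ x) → (A.card : ℝ) ≤ C * (x : ℝ) ^ ε := by
  classical
  obtain ⟨C, hC0, hC⟩ := count_eps (ε / 2) (half_pos hε)
  refine ⟨C * (2 + 1 / (ε / 2) / Real.log 2), fun x A hA => ?_⟩
  have hlog2 : 0 < Real.log 2 := Real.log_pos (by norm_num)
  rcases A.eq_empty_or_nonempty with he | ⟨b0, hb0⟩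
  · subst he
    rw [card_empty]
    push_cast
    positivity
  have hx1 : 1 ≤ x := by
    have h2 : b0 ≠ 0 := by
      rintro rfl
      have := (hA 0 hb0).1.1
      simp at this
    have h3 := (hA b0 hb0).2
    omega
  have hx : (1 : ℝ) ≤ x := by exact_mod_cast hx1
  have hsub : A ⊆ (Finset.range (Nat.log 2 x + 2)).biUnion fun K => A.filter fun b => OddSol K b := by
    intro b hb
    obtain ⟨⟨h1, h2⟩, h3⟩ := hA b hb
    obtain ⟨K, hK⟩ := exists_K h1 h2
    rw [mem_biUnion]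
    refine ⟨K, ?_, mem_filter.2 ⟨hb, hK⟩⟩
    have h4 := hK.K_le
    have h5 := card_le_log (x := x) hK.sol.pos h3
    rw [mem_range]
    omega
  have h6 : (A.card : ℝ) ≤ (Nat.log 2 x + 2 : ℝ) * (C * (x : ℝ) ^ (ε / 2)) := by
    have h7 := (card_le_card hsub).trans card_biUnion_le
    have h8 : (A.card : ℝ) ≤ ∑ K ∈ Finset.range (Nat.log 2 x + 2),
        ((A.filter fun b => OddSol K b).card : ℝ) := by exact_mod_cast h7
    refine h8.trans ?_
    refine (sum_le_sum fun (K : ℕ) _ => hC (K : ℚ) x (A.filter fun b => OddSol K b) ?_).trans ?_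
    · intro b hb
      obtain ⟨h9, h10⟩ := mem_filter.1 hb
      exact ⟨h10.sol, (hA b h9).2⟩
    · rw [sum_const, card_range, nsmul_eq_mul]
      push_cast
      exact le_refl _
  have hxe : 1 ≤ (x : ℝ) ^ (ε / 2) := Real.one_le_rpow hx (half_pos hε).le
  have h9 : (Nat.log 2 x : ℝ) ≤ (1 / (ε / 2) / Real.log 2) * (x : ℝ) ^ (ε / 2) := by
    have h10 : (Nat.log 2 x : ℝ) ≤ Real.logb 2 x := Real.natLog_le_logb x 2
    have h11 : Real.log x ≤ (x : ℝ) ^ (ε / 2) / (ε / 2) :=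
      Real.log_le_rpow_div (by linarith) (half_pos hε)
    refine h10.trans ?_
    rw [Real.logb]
    calc Real.log x / Real.log 2 ≤ ((x : ℝ) ^ (ε / 2) / (ε / 2)) / Real.log 2 :=
          div_le_div_of_nonneg_right h11 hlog2.le
      _ = (1 / (ε / 2) / Real.log 2) * (x : ℝ) ^ (ε / 2) := by ring
  have h12 : (x : ℝ) ^ ε = (x : ℝ) ^ (ε / 2) * (x : ℝ) ^ (ε / 2) := by
    rw [← Real.rpow_add (by linarith)]
    congr 1
    ring
  refine h6.trans ?_
  rw [h12]
  have h13 : (Nat.log 2 x + 2 : ℝ) ≤ (2 + 1 / (ε / 2) / Real.log 2) * (x : ℝ) ^ (ε / 2) := by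
    nlinarith
  calc (Nat.log 2 x + 2 : ℝ) * (C * (x : ℝ) ^ (ε / 2))
      ≤ ((2 + 1 / (ε / 2) / Real.log 2) * (x : ℝ) ^ (ε / 2)) * (C * (x : ℝ) ^ (ε / 2)) :=
        mul_le_mul_of_nonneg_right h13 (by positivity)
    _ = C * (2 + 1 / (ε / 2) / Real.log 2) * ((x : ℝ) ^ (ε / 2) * (x : ℝ) ^ (ε / 2)) := by ring

end Pool.Agent.AltSig37
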