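import Mathlib

/-!
MP_d358e4_nt (helper37): the arithmetic core of the bound for odd `n = K σ̃(n)` with few primes.
-/

set_option autoImplicit false

namespace Pool.Agent.AltSig37

open Finset

/-- Distinct integers `≥ q`: `∏ (1 + 1/a) ≤ (q + |A|)/q`. -/
theorem prod_le_aux (q : ℕ) (A : Finset ℕ) : (∀ a ∈ A, q ≤ a) →
    q * ∏ a ∈ A, (a + 1) ≤ (q + A.card) * ∏ a ∈ A, a := by
  induction A using Finset.induction_on_max with
  | empty => intro _; simp
  | insert a A hmax ih =>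
    intro hA
    have hna : a ∉ A := fun h => lt_irrefl a (hmax a h)
    have h1 := ih fun b hb => hA b (mem_insert_of_mem hb)
    rw [prod_insert hna, prod_insert hna, card_insert_of_notMem hna]
    have hc : q + A.card ≤ a := by
      have h2 : A ⊆ Finset.Ico q a := fun b hb =>
        Finset.mem_Ico.2 ⟨hA b (mem_insert_of_mem hb), hmax b hb⟩
      have h3 := card_le_card h2
      rw [Nat.card_Ico] at h3
      have h4 : q ≤ a := hA a (mem_insert_self a A)
      omega
    calc q * ((a + 1) * ∏ b ∈ A, (b + 1)) = (a + 1) * (q * ∏ b ∈ A, (b + 1)) := by ring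
      _ ≤ (a + 1) * ((q + A.card) * ∏ b ∈ A, b) := Nat.mul_le_mul_left _ h1
      _ = ((a + 1) * (q + A.card)) * ∏ b ∈ A, b := by ring
      _ ≤ ((q + (A.card + 1)) * a) * ∏ b ∈ A, b := by
        refine Nat.mul_le_mul_right _ ?_
        nlinarith
      _ = (q + (A.card + 1)) * (a * ∏ b ∈ A, b) := by ring

theorem prod_le (q : ℕ) (A : Finset ℕ) (f : ℕ → ℕ) (hf : Set.InjOn f A)
    (hq : ∀ a ∈ A, q ≤ f a) :
    q * ∏ a ∈ A, (f a + 1) ≤ (q + A.card) * ∏ a ∈ A, f a := by
  have h := prod_le_aux q (A.image f) (by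
    intro b hb
    obtain ⟨a, ha, rfl⟩ := mem_image.1 hb
    exact hq a ha)
  rwa [prod_image hf, prod_image hf, card_image_of_injOn hf] at h

/-- The data. -/
structure Dat (P : Finset ℕ) (r s : ℕ → ℕ) (K n : ℕ) : Prop where
  prm : ∀ p ∈ P, p.Prime
  odd : ∀ p ∈ P, p % 2 = 1
  rpos : ∀ p ∈ P, 1 ≤ r p
  hs : ∀ p ∈ P, s p * (p + 1) = p * p ^ r p + 1
  hn : n = ∏ p ∈ P, p ^ r p
  hK : n = K * ∏ p ∈ P, s p

/-- numerator -/
def U (r : ℕ → ℕ) (S T : Finset ℕ) : ℕ := (∏ p ∈ T, p ^ r p) * ∏ p ∈ S \ T, (p + 1)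

/-- denominator -/
def M (s : ℕ → ℕ) (K : ℕ) (S T : Finset ℕ) : ℕ := K * (∏ p ∈ T, s p) * ∏ p ∈ S \ T, p

variable {P : Finset ℕ} {r s : ℕ → ℕ} {K n : ℕ}

theorem Dat.ppos (h : Dat P r s K n) {p : ℕ} (hp : p ∈ P) : 0 < p := (h.prm p hp).pos

theorem Dat.spos (h : Dat P r s K n) {p : ℕ} (hp : p ∈ P) : 0 < s p := by
  rcases Nat.eq_zero_or_pos (s p) with h0 | h0
  · have := h.hs p hp
    rw [h0, zero_mul] at this
    omega
  · exact h0

theorem Dat.three (h : Dat P r s K n) {p : ℕ} (hp : p ∈ P) : 3 ≤ p := by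
  have h1 := (h.prm p hp).two_le
  have h2 := h.odd p hp
  omega

theorem Dat.slt (h : Dat P r s K n) {p : ℕ} (hp : p ∈ P) : s p < p ^ r p := by
  have h1 := h.hs p hp
  have h2 : 1 < p ^ r p := Nat.one_lt_pow (by have := h.rpos p hp; omega)
    (by have := h.three hp; omega)
  by_contra h3
  have h4 : p ^ r p * (p + 1) ≤ s p * (p + 1) := Nat.mul_le_mul_right _ (not_lt.1 h3)
  rw [h1] at h4
  nlinarith

theorem Dat.npos (h : Dat P r s K n) : 0 < n := by
  rw [h.hn]
  exact prod_pos fun p hp => pow_pos (h.ppos hp) _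

theorem Dat.Kpos (h : Dat P r s K n) : 0 < K := by
  rcases Nat.eq_zero_or_pos K with h0 | h0
  · have h1 := h.hK
    have h2 := h.npos
    rw [h0, zero_mul] at h1
    omega
  · exact h0

theorem Dat.Upos (h : Dat P r s K n) {S T : Finset ℕ} (hTS : T ⊆ S) (hS : S ⊆ P) :
    0 < U r S T :=
  Nat.mul_pos (prod_pos fun p hp => pow_pos (h.ppos (hS (hTS hp))) _)
    (prod_pos fun p _ => Nat.succ_pos p)

theorem Dat.Mpos (h : Dat P r s K n) {S T : Finset ℕ} (hTS : T ⊆ S) (hS : S ⊆ P) :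
    0 < M s K S T :=
  Nat.mul_pos (Nat.mul_pos h.Kpos (prod_pos fun p hp => h.spos (hS (hTS hp))))
    (prod_pos fun p hp => h.ppos (hS (mem_sdiff.1 hp).1))

theorem split (f : ℕ → ℕ) {S T : Finset ℕ} (hTS : T ⊆ S) :
    ∏ p ∈ S, f p = (∏ p ∈ T, f p) * ∏ p ∈ S \ T, f p := by
  rw [mul_comm]
  exact (prod_sdiff hTS).symm

/-- (A) -/
theorem Dat.ineqA (h : Dat P r s K n) {S T : Finset ℕ} (hTS : T ⊆ S) (hS : S ⊆ P) :
    M s K S T * ∏ p ∈ P \ S, p ≤ U r S T * ∏ p ∈ P \ S, (p + 1) := by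
  have hTP : T ⊆ P := hTS.trans hS
  have hsp : ∀ f : ℕ → ℕ, ∏ p ∈ P \ T, f p = (∏ p ∈ S \ T, f p) * ∏ p ∈ P \ S, f p := by
    intro f
    have h1 : S \ T ⊆ P \ T := sdiff_subset_sdiff hS (Finset.Subset.refl _)
    have h2 : (P \ T) \ (S \ T) = P \ S := by
      ext x
      simp only [mem_sdiff]
      constructor
      · rintro ⟨⟨h3, h4⟩, h5⟩
        exact ⟨h3, fun h6 => h5 ⟨h6, h4⟩⟩
      · rintro ⟨h3, h4⟩
        exact ⟨⟨h3, fun h5 => h4 (hTS h5)⟩, fun h5 => h4 h5.1⟩
    rw [split f h1, h2]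
  have e1 : K * (∏ p ∈ T, s p) * ∏ p ∈ P \ T, s p =
      (∏ p ∈ T, p ^ r p) * ∏ p ∈ P \ T, p ^ r p := by
    rw [mul_assoc, ← split _ hTP, ← split _ hTP, ← h.hK, ← h.hn]
  have hpos : 0 < ∏ p ∈ P \ T, p ^ r p :=
    prod_pos fun p hp => pow_pos (h.ppos (mem_sdiff.1 hp).1) _
  refine Nat.le_of_mul_le_mul_right ?_ hpos
  calc M s K S T * (∏ p ∈ P \ S, p) * ∏ p ∈ P \ T, p ^ r p
      = K * (∏ p ∈ T, s p) * ((∏ p ∈ P \ T, p) * ∏ p ∈ P \ T, p ^ r p) := by
        rw [hsp (fun p => p), M]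
        ring
    _ = K * (∏ p ∈ T, s p) * ∏ p ∈ P \ T, (p * p ^ r p) := by rw [prod_mul_distrib]
    _ ≤ K * (∏ p ∈ T, s p) * ∏ p ∈ P \ T, (s p * (p + 1)) := by
        refine Nat.mul_le_mul_left _ (prod_le_prod' fun p hp => ?_)
        rw [h.hs p (mem_sdiff.1 hp).1]
        exact Nat.le_succ _
    _ = (K * (∏ p ∈ T, s p) * ∏ p ∈ P \ T, s p) * ∏ p ∈ P \ T, (p + 1) := by
        rw [prod_mul_distrib]
        ring
    _ = U r S T * (∏ p ∈ P \ S, (p + 1)) * ∏ p ∈ P \ T, p ^ r p := by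
        rw [e1, hsp (fun p => p + 1), U]
        ring

/-- (B) -/
theorem Dat.ineqB (h : Dat P r s K n) {S T : Finset ℕ} (hTS : T ⊆ S) (hS : S ⊆ P) :
    U r S T * ∏ p ∈ S \ T, (p * p ^ r p) ≤ M s K S T * ∏ p ∈ S \ T, (p * p ^ r p + 1) := by
  have e1 : K * (∏ p ∈ T, s p) * (∏ p ∈ S \ T, s p) * ∏ p ∈ P \ S, s p =
      (∏ p ∈ T, p ^ r p) * (∏ p ∈ S \ T, p ^ r p) * ∏ p ∈ P \ S, p ^ r p := by
    rw [mul_assoc K, ← split _ hTS, ← split _ hTS, mul_assoc, ← split _ hS, ← split _ hS,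
      ← h.hK, ← h.hn]
  have hpos : 0 < ∏ p ∈ P \ S, p ^ r p :=
    prod_pos fun p hp => pow_pos (h.ppos (mem_sdiff.1 hp).1) _
  refine Nat.le_of_mul_le_mul_right ?_ hpos
  calc U r S T * (∏ p ∈ S \ T, (p * p ^ r p)) * ∏ p ∈ P \ S, p ^ r p
      = ((∏ p ∈ T, p ^ r p) * (∏ p ∈ S \ T, p ^ r p) * ∏ p ∈ P \ S, p ^ r p) *
          ((∏ p ∈ S \ T, (p + 1)) * ∏ p ∈ S \ T, p) := by
        rw [prod_mul_distrib, U]
        ring
    _ = (K * (∏ p ∈ T, s p) * (∏ p ∈ S \ T, p)) *
          ((∏ p ∈ S \ T, s p) * ∏ p ∈ S \ T, (p + 1)) * ∏ p ∈ P \ S, s p := by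
        rw [← e1]
        ring
    _ = M s K S T * (∏ p ∈ S \ T, (p * p ^ r p + 1)) * ∏ p ∈ P \ S, s p := by
        rw [← prod_mul_distrib (f := s), M]
        congr 2
        exact prod_congr rfl fun p hp => h.hs p (hS (mem_sdiff.1 hp).1)
    _ ≤ M s K S T * (∏ p ∈ S \ T, (p * p ^ r p + 1)) * ∏ p ∈ P \ S, p ^ r p := by
        refine Nat.mul_le_mul_left _ (prod_le_prod' fun p hp => ?_)
        exact (h.slt (mem_sdiff.1 hp).1).le

/-- Step A. -/
theorem Dat.stepA (h : Dat P r s K n) {S T : Finset ℕ} (hTS : T ⊆ S) (hS : S ⊆ P)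
    (hlt : U r S T < M s K S T) :
    ∃ q ∈ P, q ∉ S ∧ q ≤ P.card * U r S T := by
  have hA := h.ineqA hTS hS
  have hne : (P \ S).Nonempty := by
    rw [nonempty_iff_ne_empty]
    intro he
    rw [he, prod_empty, prod_empty, mul_one, mul_one] at hA
    omega
  obtain ⟨q, hq, hmin⟩ := exists_min_image (P \ S) id hne
  refine ⟨q, (mem_sdiff.1 hq).1, (mem_sdiff.1 hq).2, ?_⟩
  have h1 := prod_le q (P \ S) id (fun a _ b _ e => e) hmin
  simp only [id] at h1
  have hpos : 0 < ∏ p ∈ P \ S, p := prod_pos fun p hp => h.ppos (mem_sdiff.1 hp).1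
  have h2 : M s K S T * q * ∏ p ∈ P \ S, p ≤
      (U r S T * (q + (P \ S).card)) * ∏ p ∈ P \ S, p := by
    calc M s K S T * q * ∏ p ∈ P \ S, p = q * (M s K S T * ∏ p ∈ P \ S, p) := by ring
      _ ≤ q * (U r S T * ∏ p ∈ P \ S, (p + 1)) := Nat.mul_le_mul_left _ hA
      _ = U r S T * (q * ∏ p ∈ P \ S, (p + 1)) := by ring
      _ ≤ U r S T * ((q + (P \ S).card) * ∏ p ∈ P \ S, p) := Nat.mul_le_mul_left _ h1
      _ = (U r S T * (q + (P \ S).card)) * ∏ p ∈ P \ S, p := by ring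
  have h3 := Nat.le_of_mul_le_mul_right h2 hpos
  have h4 : (P \ S).card ≤ P.card := card_le_card sdiff_subset
  have h5 : (U r S T + 1) * q ≤ M s K S T * q := Nat.mul_le_mul_right _ hlt
  have h6 : U r S T * (P \ S).card ≤ U r S T * P.card := Nat.mul_le_mul_left _ h4
  nlinarith

/-- Step B. -/
theorem Dat.stepB (h : Dat P r s K n) {S T : Finset ℕ} (hTS : T ⊆ S) (hS : S ⊆ P)
    (hlt : M s K S T < U r S T) :
    ∃ p ∈ S, p ∉ T ∧ p * p ^ r p ≤ P.card * M s K S T := by
  have hB := h.ineqB hTS hS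
  have hne : (S \ T).Nonempty := by
    rw [nonempty_iff_ne_empty]
    intro he
    rw [he, prod_empty, prod_empty, mul_one, mul_one] at hB
    omega
  obtain ⟨p, hp, hmin⟩ := exists_min_image (S \ T) (fun p => p * p ^ r p) hne
  refine ⟨p, (mem_sdiff.1 hp).1, (mem_sdiff.1 hp).2, ?_⟩
  have hinj : Set.InjOn (fun p => p * p ^ r p) ((S \ T : Finset ℕ) : Set ℕ) := by
    intro a ha b hb e
    have ha' := h.prm a (hS (mem_sdiff.1 (mem_coe.1 ha)).1)
    have hb' := h.prm b (hS (mem_sdiff.1 (mem_coe.1 hb)).1)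
    have e' : a * a ^ r a = b * b ^ r b := e
    have h1 : a ∣ b * b ^ r b := e' ▸ Dvd.intro _ rfl
    have h2 : a ∣ b := by
      rcases (Nat.Prime.dvd_mul ha').1 h1 with h3 | h3
      · exact h3
      · exact ha'.dvd_of_dvd_pow h3
    exact (Nat.prime_dvd_prime_iff_eq ha' hb').1 h2
  have h1 := prod_le (p * p ^ r p) (S \ T) (fun p => p * p ^ r p) hinj hmin
  have hpos : 0 < ∏ p ∈ S \ T, (p * p ^ r p) := prod_pos fun p hp =>
    Nat.mul_pos (h.ppos (hS (mem_sdiff.1 hp).1)) (pow_pos (h.ppos (hS (mem_sdiff.1 hp).1)) _)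
  have h2 : U r S T * (p * p ^ r p) * ∏ p ∈ S \ T, (p * p ^ r p) ≤
      (M s K S T * (p * p ^ r p + (S \ T).card)) * ∏ p ∈ S \ T, (p * p ^ r p) := by
    calc U r S T * (p * p ^ r p) * ∏ p ∈ S \ T, (p * p ^ r p)
        = (p * p ^ r p) * (U r S T * ∏ p ∈ S \ T, (p * p ^ r p)) := by ring
      _ ≤ (p * p ^ r p) * (M s K S T * ∏ p ∈ S \ T, (p * p ^ r p + 1)) :=
          Nat.mul_le_mul_left _ hB
      _ = M s K S T * ((p * p ^ r p) * ∏ p ∈ S \ T, (p * p ^ r p + 1)) := by ring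
      _ ≤ M s K S T * ((p * p ^ r p + (S \ T).card) * ∏ p ∈ S \ T, (p * p ^ r p)) :=
          Nat.mul_le_mul_left _ h1
      _ = (M s K S T * (p * p ^ r p + (S \ T).card)) * ∏ p ∈ S \ T, (p * p ^ r p) := by ring
  have h3 := Nat.le_of_mul_le_mul_right h2 hpos
  have h4 : (S \ T).card ≤ P.card := card_le_card (sdiff_subset.trans hS)
  have h5 : (M s K S T + 1) * (p * p ^ r p) ≤ U r S T * (p * p ^ r p) :=
    Nat.mul_le_mul_right _ hlt
  have h6 : M s K S T * (S \ T).card ≤ M s K S T * P.card := Nat.mul_le_mul_left _ h4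
  nlinarith

/-- Step C. -/
theorem Dat.stepC (h : Dat P r s K n) {S T : Finset ℕ} (hTS : T ⊆ S) (hS : S ⊆ P)
    (he : U r S T = M s K S T) : S = P ∧ T = P := by
  have hST : S \ T = ∅ := by
    by_contra hne
    obtain ⟨q, hq, hmax⟩ := exists_max_image (S \ T) id (nonempty_iff_ne_empty.2 hne)
    have hqS := (mem_sdiff.1 hq).1
    have hqp := h.prm q (hS hqS)
    have h1 : q ∣ M s K S T := by
      unfold M
      exact Dvd.dvd.mul_left (dvd_prod_of_mem _ hq) _
    rw [← he, U] at h1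
    rcases (Nat.Prime.dvd_mul hqp).1 h1 with h2 | h2
    · obtain ⟨p, hp, h3⟩ := (Prime.dvd_finsetProd_iff hqp.prime _).1 h2
      have h4 := hqp.dvd_of_dvd_pow h3
      have h5 := (Nat.prime_dvd_prime_iff_eq hqp (h.prm p (hS (hTS hp)))).1 h4
      exact (mem_sdiff.1 hq).2 (h5 ▸ hp)
    · obtain ⟨p, hp, h3⟩ := (Prime.dvd_finsetProd_iff hqp.prime _).1 h2
      have h4 : p ≤ q := hmax p hp
      have h5 := h.odd p (hS (mem_sdiff.1 hp).1)
      have h6 := h.odd q (hS hqS)
      have h7 := Nat.le_of_dvd (Nat.succ_pos p) h3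
      have h8 := hqp.two_le
      rcases eq_or_lt_of_le h4 with h9 | h9
      · rw [h9] at h3
        have h10 : q ∣ 1 := (Nat.dvd_add_right (dvd_refl q)).1 h3
        have := Nat.le_of_dvd one_pos h10
        omega
      · omega
  have hST' : S = T := Finset.Subset.antisymm (sdiff_eq_empty_iff_subset.1 hST) hTS
  subst hST'
  have h1 : U r S S = ∏ p ∈ S, p ^ r p := by rw [U, Finset.sdiff_self, prod_empty, mul_one]
  have h2 : M s K S S = K * ∏ p ∈ S, s p := by rw [M, Finset.sdiff_self, prod_empty, mul_one]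
  rw [h1, h2] at he
  have hPS : P \ S = ∅ := by
    by_contra hne
    have h3 : ∏ p ∈ P \ S, s p < ∏ p ∈ P \ S, p ^ r p :=
      prod_lt_prod_of_nonempty (fun p hp => h.spos (mem_sdiff.1 hp).1)
        (fun p hp => h.slt (mem_sdiff.1 hp).1) (nonempty_iff_ne_empty.2 hne)
    have h4 : (K * ∏ p ∈ S, s p) * ∏ p ∈ P \ S, s p =
        (∏ p ∈ S, p ^ r p) * ∏ p ∈ P \ S, p ^ r p := by
      rw [mul_assoc, ← split _ hS, ← split _ hS, ← h.hK, ← h.hn]
    rw [← he] at h4
    have h5 : 0 < ∏ p ∈ S, p ^ r p := prod_pos fun p hp => pow_pos (h.ppos (hS hp)) _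
    have h6 := Nat.eq_of_mul_eq_mul_left h5 h4
    omega
  have : P = S := Finset.Subset.antisymm (sdiff_eq_empty_iff_subset.1 hPS) hS
  exact ⟨this.symm, this.symm⟩

theorem sq_step (c m m' e : ℕ) (h1 : c * m' ≤ (c * m) ^ 2) (h2 : c * m ≤ c ^ 2 ^ e) :
    c * m' ≤ c ^ 2 ^ (e + 1) := by
  refine h1.trans ((Nat.pow_le_pow_left h2 2).trans ?_)
  rw [← pow_mul, ← pow_succ]

/-- The iteration. -/
theorem Dat.iter (h : Dat P r s K n) (m : ℕ) : ∀ S T : Finset ℕ, T ⊆ S → S ⊆ P →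
    2 * P.card ≤ S.card + T.card + m →
    (P.card + 1) * min (U r S T) (M s K S T) ≤ (P.card + 1) ^ 2 ^ (S.card + T.card) →
    (P.card + 1) * n ≤ (P.card + 1) ^ 2 ^ (2 * P.card) := by
  have hend : (P.card + 1) * min (U r P P) (M s K P P) ≤ (P.card + 1) ^ 2 ^ (P.card + P.card) →
      (P.card + 1) * n ≤ (P.card + 1) ^ 2 ^ (2 * P.card) := by
    intro h1
    have h2 : U r P P = n := by rw [U, Finset.sdiff_self, prod_empty, mul_one, ← h.hn]
    have h3 : M s K P P = n := by rw [M, Finset.sdiff_self, prod_empty, mul_one, ← h.hK]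
    rw [h2, h3, min_self, ← two_mul] at h1
    exact h1
  induction m with
  | zero =>
    intro S T hTS hS hm hb
    have h1 := card_le_card hTS
    have h2 := card_le_card hS
    have h3 : S = P := eq_of_subset_of_card_le hS (by omega)
    subst h3
    have h4 : T = S := eq_of_subset_of_card_le hTS (by omega)
    subst h4
    exact hend hb
  | succ m ih =>
    intro S T hTS hS hm hb
    rcases lt_trichotomy (U r S T) (M s K S T) with hlt | heq | hgt
    · -- add a prime to S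
      obtain ⟨q, hqP, hqS, hq⟩ := h.stepA hTS hS hlt
      have hqT : q ∉ T := fun hh => hqS (hTS hh)
      refine ih (insert q S) T (hTS.trans (subset_insert q S))
        (insert_subset hqP hS) ?_ ?_
      · rw [card_insert_of_notMem hqS]
        omega
      · rw [card_insert_of_notMem hqS, show S.card + 1 + T.card = S.card + T.card + 1 by ring]
        refine sq_step _ (U r S T) _ _ ?_ ?_
        · refine (Nat.mul_le_mul_left _ (min_le_left _ _)).trans ?_
          have h1 : U r (insert q S) T = U r S T * (q + 1) := by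
            rw [U, U, insert_sdiff_of_notMem _ hqT, prod_insert (fun hh =>
              hqS (mem_sdiff.1 hh).1)]
            ring
          rw [h1]
          have hu := h.Upos hTS hS
          have h2 : q + 1 ≤ (P.card + 1) * U r S T := by nlinarith
          calc (P.card + 1) * (U r S T * (q + 1))
              ≤ (P.card + 1) * (U r S T * ((P.card + 1) * U r S T)) :=
                Nat.mul_le_mul_left _ (Nat.mul_le_mul_left _ h2)
            _ = ((P.card + 1) * U r S T) ^ 2 := by ring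
        · rw [min_eq_left hlt.le] at hb
          exact hb
    · obtain ⟨h1, h2⟩ := h.stepC hTS hS heq
      subst h1
      subst h2
      exact hend hb
    · -- add a prime to T
      obtain ⟨p, hpS, hpT, hp⟩ := h.stepB hTS hS hgt
      have hpP := hS hpS
      refine ih S (insert p T) (insert_subset hpS hTS) hS ?_ ?_
      · rw [card_insert_of_notMem hpT]
        omega
      · rw [card_insert_of_notMem hpT, show S.card + (T.card + 1) = S.card + T.card + 1 by ring]
        refine sq_step _ (M s K S T) _ _ ?_ ?_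
        · refine (Nat.mul_le_mul_left _ (min_le_right _ _)).trans ?_
          have hmem : p ∈ S \ T := mem_sdiff.2 ⟨hpS, hpT⟩
          have h1 : M s K S (insert p T) * p = M s K S T * s p := by
            rw [M, M, prod_insert hpT, sdiff_insert, ← mul_prod_erase (S \ T) (fun p => p) hmem]
            ring
          have h2 : s p ≤ p * p ^ r p := by
            have h3 := (h.slt hpP).le
            have h4 : p ^ r p ≤ p * p ^ r p := Nat.le_mul_of_pos_left _ (h.ppos hpP)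
            exact h3.trans h4
          have h3 : M s K S (insert p T) ≤ M s K S T * s p := by
            rw [← h1]
            exact Nat.le_mul_of_pos_right _ (h.ppos hpP)
          have h5 : M s K S (insert p T) ≤ M s K S T * (P.card * M s K S T) :=
            h3.trans (Nat.mul_le_mul_left _ (h2.trans hp))
          calc (P.card + 1) * M s K S (insert p T)
              ≤ (P.card + 1) * (M s K S T * (P.card * M s K S T)) := Nat.mul_le_mul_left _ h5
            _ ≤ (P.card + 1) * (M s K S T * ((P.card + 1) * M s K S T)) :=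
                Nat.mul_le_mul_left _ (Nat.mul_le_mul_left _
                  (Nat.mul_le_mul_right _ (Nat.le_succ _)))
            _ = ((P.card + 1) * M s K S T) ^ 2 := by ring
        · rw [min_eq_right hgt.le] at hb
          exact hb

theorem Dat.bound (h : Dat P r s K n) : n ≤ (P.card + 1) ^ (4 ^ P.card - 1) := by
  have h1 := h.iter (2 * P.card) ∅ ∅ (Finset.Subset.refl _) (empty_subset _)
    (by rw [card_empty]; omega) (by
      rw [card_empty, U, M, Finset.sdiff_self, prod_empty, prod_empty, prod_empty, prod_empty]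
      have hK : 1 ≤ K := h.Kpos
      have h0 : min (1 * 1) (K * 1 * 1) = 1 := by
        rw [mul_one, mul_one, mul_one]
        exact min_eq_left hK
      rw [h0]
      norm_num)
  have h2 : 2 ^ (2 * P.card) = (4 ^ P.card - 1) + 1 := by
    rw [pow_mul]
    have : 0 < 4 ^ P.card := pow_pos (by norm_num) _
    norm_num
    omega
  rw [h2, pow_succ, mul_comm _ (P.card + 1)] at h1
  exact Nat.le_of_mul_le_mul_left h1 (Nat.succ_pos _)

end Pool.Agent.AltSig37
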