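import Pool.Agent.AltSig37.Sig

/-!
MP_d358e4_nt (helper37): a solution is determined by its exponents in a suitable order.
-/

set_option autoImplicit false

namespace Pool.Agent.AltSig37

open Finset

/-- `b = f σ̃(b)`, `b` odd with even exponents. -/
def SolF (f : ℚ) (b : ℕ) : Prop :=
  Odd b ∧ (∀ p ∈ b.primeFactors, Even (b.factorization p)) ∧ (b : ℚ) = f * (sig b : ℚ)

/-- The next prime. -/
def nx (f : ℚ) : ℕ := f.num.natAbs.minFac

/-- The reduced fraction. -/
def red (f : ℚ) (β : ℕ) : ℚ := f * (sp (nx f) β : ℚ) / (nx f : ℚ) ^ β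

theorem prod_ord {R : Type*} [CommMonoid R] (F : ℕ → ℕ → R) {b q : ℕ} (hb : b ≠ 0)
    (hq : q.Prime) (hd : q ∣ b) :
    ∏ p ∈ b.primeFactors, F p (b.factorization p) = F q (b.factorization q) *
      ∏ p ∈ (b / q ^ b.factorization q).primeFactors,
        F p ((b / q ^ b.factorization q).factorization p) := by
  have hmem : q ∈ b.primeFactors := Nat.mem_primeFactors.2 ⟨hq, hd, hb⟩
  have hf : (b / q ^ b.factorization q).factorization = b.factorization.erase q :=
    Nat.factorization_ordCompl b q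
  have hpf : (b / q ^ b.factorization q).primeFactors = b.primeFactors.erase q := by
    rw [← Nat.support_factorization, hf, Finsupp.support_erase, Nat.support_factorization]
  rw [hpf, ← mul_prod_erase b.primeFactors (fun p => F p (b.factorization p)) hmem]
  congr 1
  refine prod_congr rfl fun p hp => ?_
  rw [hf, Finsupp.erase_ne (Finset.ne_of_mem_erase hp)]

section

variable {b : ℕ} (hb : Odd b) (he : ∀ p ∈ b.primeFactors, Even (b.factorization p))

include hb he

theorem sp_pos_lt {p : ℕ} (hp : p ∈ b.primeFactors) :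
    0 < sp p (b.factorization p) ∧ sp p (b.factorization p) < (p : ℤ) ^ b.factorization p := by
  have hb0 : b ≠ 0 := by
    rintro rfl
    simp at hb
  have h1 := sp_mul p (b.factorization p)
  rw [(he p hp).neg_one_pow] at h1
  have hp1 := (Nat.prime_of_mem_primeFactors hp).two_le
  have hf := (Nat.prime_of_mem_primeFactors hp).factorization_pos_of_dvd hb0
    (Nat.dvd_of_mem_primeFactors hp)
  have h2 : (1 : ℤ) < (p : ℤ) ^ b.factorization p := by
    have := Nat.one_lt_pow hf.ne' (by omega : 1 < p)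
    exact_mod_cast this
  have h3 : (0 : ℤ) < (p : ℤ) + 1 := by positivity
  have h4 : (0 : ℤ) < (p : ℤ) := by exact_mod_cast (by omega : 0 < p)
  constructor
  · by_contra hc
    have h5 : sp p (b.factorization p) * ((p : ℤ) + 1) ≤ 0 :=
      mul_nonpos_of_nonpos_of_nonneg (not_lt.1 hc) h3.le
    have h6 : (0 : ℤ) < (p : ℤ) * p ^ (b.factorization p) := by positivity
    linarith
  · by_contra hc
    have h5 : (p : ℤ) ^ b.factorization p * ((p : ℤ) + 1) ≤
        sp p (b.factorization p) * ((p : ℤ) + 1) :=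
      mul_le_mul_of_nonneg_right (not_lt.1 hc) h3.le
    rw [h1] at h5
    linarith

theorem sig_pos : 0 < sig b := prod_pos fun p hp => (sp_pos_lt hb he hp).1

theorem sig_lt (h1 : b ≠ 1) : sig b < b := by
  have hb0 : b ≠ 0 := by
    rintro rfl
    simp at hb
  have h2 : (b : ℤ) = ∏ p ∈ b.primeFactors, (p : ℤ) ^ b.factorization p := by
    conv_lhs => rw [← Nat.prod_factorization_pow_eq_self hb0]
    rw [Finsupp.prod, Nat.support_factorization]
    push_cast
    rfl
  have h3 : b.primeFactors.Nonempty := Nat.nonempty_primeFactors.2 (by omega)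
  rw [h2, sig]
  exact prod_lt_prod_of_nonempty (fun p hp => (sp_pos_lt hb he hp).1)
    (fun p hp => (sp_pos_lt hb he hp).2) h3

end

theorem SolF.one {b : ℕ} (h : SolF 1 b) : b = 1 := by
  by_contra h1
  have h2 := sig_lt h.1 h.2.1 h1
  have h3 := h.2.2
  rw [one_mul] at h3
  have h4 : (b : ℤ) = sig b := by exact_mod_cast h3
  omega

theorem SolF.eq_one {f : ℚ} (h : SolF f 1) : f = 1 := by
  have h3 := h.2.2
  simp [sig] at h3
  exact h3.symm

theorem SolF.nx {f : ℚ} {b : ℕ} (h : SolF f b) (h1 : b ≠ 1) : (nx f).Prime ∧ nx f ∣ b := by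
  obtain ⟨hb, he, hf⟩ := h
  have hs := sig_pos hb he
  have hl := sig_lt hb he h1
  have hden : (0 : ℤ) < f.den := by exact_mod_cast f.pos
  have key : f.num * sig b = b * f.den := by
    have h2 : f = (f.num : ℚ) / (f.den : ℚ) := (Rat.num_div_den f).symm
    have h3 : (f.den : ℚ) ≠ 0 := by exact_mod_cast f.den_nz
    rw [h2] at hf
    field_simp at hf
    have h4 : ((b : ℤ) * f.den : ℤ) = f.num * sig b := by
      have : ((b : ℚ) * (f.den : ℚ)) = (f.num : ℚ) * (sig b : ℚ) := hf
      exact_mod_cast this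
    exact h4.symm
  have hnum : 1 < f.num := by
    by_contra hc
    have h5 : f.num * sig b ≤ 1 * sig b := mul_le_mul_of_nonneg_right (not_lt.1 hc) hs.le
    have h6 : (b : ℤ) * 1 ≤ b * f.den := mul_le_mul_of_nonneg_left hden (by positivity)
    linarith
  have hne : f.num.natAbs ≠ 1 := by omega
  refine ⟨Nat.minFac_prime hne, ?_⟩
  have hdv : f.num ∣ (b : ℤ) := by
    have h7 : IsCoprime f.num (f.den : ℤ) := by
      rw [Int.isCoprime_iff_gcd_eq_one]
      exact f.reduced
    exact h7.dvd_of_dvd_mul_right (Dvd.intro _ key)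
  exact (Nat.minFac_dvd _).trans (Int.natAbs_dvd_natAbs.2 hdv)

theorem SolF.pos {f : ℚ} {b : ℕ} (h : SolF f b) : b ≠ 0 := by
  rintro rfl
  have := h.1
  simp at this

theorem SolF.red {f : ℚ} {b : ℕ} (h : SolF f b) (h1 : b ≠ 1) :
    SolF (red f (b.factorization (AltSig37.nx f)))
      (b / AltSig37.nx f ^ b.factorization (AltSig37.nx f)) := by
  obtain ⟨hq, hd⟩ := h.nx h1
  have hb0 := h.pos
  obtain ⟨hb, he, hf⟩ := h
  obtain ⟨q, hqdef⟩ : ∃ q, q = AltSig37.nx f := ⟨_, rfl⟩
  rw [← hqdef] at hq hd ⊢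
  have hfac : (b / q ^ b.factorization q).factorization = b.factorization.erase q :=
    Nat.factorization_ordCompl b q
  have hmul : q ^ b.factorization q * (b / q ^ b.factorization q) = b :=
    Nat.ordProj_mul_ordCompl_eq_self b q
  refine ⟨?_, ?_, ?_⟩
  · exact Odd.of_dvd_nat hb (Dvd.intro_left _ hmul)
  · intro p hp
    have hne : p ≠ q := by
      rintro rfl
      exact Nat.not_dvd_ordCompl hq hb0 (Nat.dvd_of_mem_primeFactors hp)
    rw [hfac, Finsupp.erase_ne hne]
    refine he p ?_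
    rw [Nat.mem_primeFactors] at hp ⊢
    exact ⟨hp.1, hp.2.1.trans (Dvd.intro_left _ hmul), hb0⟩
  · have hsig : sig b = sp q (b.factorization q) * sig (b / q ^ b.factorization q) :=
      prod_ord (fun p r => sp p r) hb0 hq hd
    have hq0 : (q : ℚ) ^ b.factorization q ≠ 0 :=
      pow_ne_zero _ (by exact_mod_cast hq.ne_zero)
    have hbq : ((q : ℚ) ^ b.factorization q) * ((b / q ^ b.factorization q : ℕ) : ℚ) = b := by
      exact_mod_cast hmul
    have e1 : ((q : ℚ) ^ b.factorization q) * ((b / q ^ b.factorization q : ℕ) : ℚ) =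
        f * ((sp q (b.factorization q) : ℚ) * (sig (b / q ^ b.factorization q) : ℚ)) := by
      rw [hbq, hf, hsig]
      push_cast
      ring
    unfold AltSig37.red
    rw [← hqdef, div_mul_eq_mul_div, eq_div_iff hq0, mul_comm, e1]
    ring

theorem SolF.lt {f : ℚ} {b : ℕ} (h : SolF f b) (h1 : b ≠ 1) :
    b / AltSig37.nx f ^ b.factorization (AltSig37.nx f) < b ∧
      1 ≤ b.factorization (AltSig37.nx f) := by
  obtain ⟨hq, hd⟩ := h.nx h1
  have hb0 := h.pos
  have hf := hq.factorization_pos_of_dvd hb0 hd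
  exact ⟨Nat.div_lt_self (Nat.pos_of_ne_zero hb0) (Nat.one_lt_pow hf.ne' hq.one_lt), hf⟩

/-- The exponents in canonical order. -/
def ex : ℕ → ℚ → ℕ → List ℕ
  | 0, _, _ => []
  | N + 1, f, b => if b = 1 then [] else
      b.factorization (nx f) :: ex N (red f (b.factorization (nx f)))
        (b / nx f ^ b.factorization (nx f))

theorem ex_inj (N : ℕ) : ∀ (f : ℚ) (b c : ℕ), SolF f b → SolF f c → b ≤ N → c ≤ N →
    ex N f b = ex N f c → b = c := by
  induction N with
  | zero =>
    intro f b c hb _ hbN _ _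
    exact absurd (Nat.le_zero.1 hbN) hb.pos
  | succ N ih =>
    intro f b c hb hc hbN hcN h
    by_cases hb1 : b = 1
    · subst hb1
      have := hb.eq_one
      subst this
      exact hc.one.symm
    by_cases hc1 : c = 1
    · subst hc1
      have := hc.eq_one
      subst this
      exact absurd hb.one hb1
    rw [ex, ex, if_neg hb1, if_neg hc1, List.cons.injEq] at h
    obtain ⟨h1, h2⟩ := h
    rw [← h1] at h2
    have hbr := hb.red hb1
    have hcr := hc.red hc1
    rw [← h1] at hcr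
    have hbl := (hb.lt hb1).1
    have hcl := (hc.lt hc1).1
    rw [← h1] at hcl
    have h3 := ih _ _ _ hbr hcr (by omega) (by omega) h2
    have h4 : nx f ^ b.factorization (nx f) * (b / nx f ^ b.factorization (nx f)) = b :=
      Nat.ordProj_mul_ordCompl_eq_self b (nx f)
    have h5 : nx f ^ c.factorization (nx f) * (c / nx f ^ c.factorization (nx f)) = c :=
      Nat.ordProj_mul_ordCompl_eq_self c (nx f)
    rw [← h1] at h5
    rw [← h4, ← h5, h3]

theorem ex_perm (N : ℕ) : ∀ (f : ℚ) (b : ℕ), SolF f b → b ≤ N →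
    ((ex N f b : List ℕ) : Multiset ℕ) = b.primeFactors.val.map b.factorization := by
  induction N with
  | zero =>
    intro f b hb hbN
    exact absurd (Nat.le_zero.1 hbN) hb.pos
  | succ N ih =>
    intro f b hb hbN
    by_cases hb1 : b = 1
    · subst hb1
      simp [ex]
    rw [ex, if_neg hb1]
    obtain ⟨hq, hd⟩ := hb.nx hb1
    have hmem : nx f ∈ b.primeFactors := Nat.mem_primeFactors.2 ⟨hq, hd, hb.pos⟩
    have hf : (b / nx f ^ b.factorization (nx f)).factorization =
        b.factorization.erase (nx f) := Nat.factorization_ordCompl b _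
    have hpf : (b / nx f ^ b.factorization (nx f)).primeFactors =
        b.primeFactors.erase (nx f) := by
      rw [← Nat.support_factorization, hf, Finsupp.support_erase, Nat.support_factorization]
    have hbl := (hb.lt hb1).1
    have h1 := ih _ _ (hb.red hb1) (by omega)
    rw [← Multiset.cons_coe, h1, hpf, Finset.erase_val]
    have h2 : b.primeFactors.val = nx f ::ₘ b.primeFactors.val.erase (nx f) :=
      (Multiset.cons_erase (show nx f ∈ b.primeFactors.val from hmem)).symm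
    conv_rhs => rw [h2, Multiset.map_cons]
    congr 1
    refine Multiset.map_congr rfl fun p hp => ?_
    rw [hf, Finsupp.erase_ne]
    rintro rfl
    exact (Multiset.Nodup.notMem_erase b.primeFactors.nodup) hp

theorem ex_stab (N : ℕ) : ∀ (M : ℕ) (f : ℚ) (b : ℕ), SolF f b → b ≤ N → b ≤ M →
    ex N f b = ex M f b := by
  induction N with
  | zero =>
    intro M f b hb hbN _
    exact absurd (Nat.le_zero.1 hbN) hb.pos
  | succ N ih =>
    intro M f b hb hbN hbM
    cases M with
    | zero => exact absurd (Nat.le_zero.1 hbM) hb.pos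
    | succ M =>
      by_cases hb1 : b = 1
      · subst hb1
        simp [ex]
      rw [ex, ex, if_neg hb1, if_neg hb1]
      have hbl := (hb.lt hb1).1
      rw [ih M _ _ (hb.red hb1) (by omega) (by omega)]

/-- Weight of `b`. -/
noncomputable def W (t : ℝ) (y : ℝ) (b : ℕ) : ℝ :=
  ∏ p ∈ b.primeFactors, t * y ^ (b.factorization p / 2)

theorem geo (y : ℝ) (hy0 : 0 < y) (hy1 : y < 1) (B : Finset ℕ)
    (hB : ∀ β ∈ B, 1 ≤ β ∧ Even β) :
    ∑ β ∈ B, y ^ (β / 2) ≤ y / (1 - y) := by
  have hs : Summable (fun β : ℕ => y ^ (β + 1)) := by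
    simp_rw [pow_succ]
    exact (summable_geometric_of_lt_one hy0.le hy1).mul_right y
  have h1 : ∑ β ∈ B, y ^ (β / 2) = ∑ β ∈ B.image (fun β => β / 2 - 1), y ^ (β + 1) := by
    rw [sum_image]
    · refine sum_congr rfl fun β hβ => ?_
      obtain ⟨h2, c, hc⟩ := hB β hβ
      rw [Nat.sub_add_cancel (by omega)]
    · intro a ha c hc e
      obtain ⟨h2, u, hu⟩ := hB a ha
      obtain ⟨h3, v, hv⟩ := hB c hc
      simp only at e
      omega
  have h4 : ∑' β : ℕ, y ^ (β + 1) = y / (1 - y) := by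
    simp_rw [pow_succ]
    rw [tsum_mul_right, tsum_geometric_of_lt_one hy0.le hy1]
    field_simp
  rw [h1, ← h4]
  exact hs.sum_le_tsum _ fun β _ => by positivity

/-- Kraft's inequality for the solutions. -/
theorem kraft (t y : ℝ) (ht : 0 < t) (hy0 : 0 < y) (hy1 : y < 1) (hty : t * (y / (1 - y)) ≤ 1)
    (N : ℕ) : ∀ (f : ℚ) (A : Finset ℕ), (∀ b ∈ A, SolF f b ∧ b ≤ N) → ∑ b ∈ A, W t y b ≤ 1 := by
  induction N with
  | zero =>
    intro f A hA
    rw [sum_eq_zero]
    · norm_num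
    · intro b hb
      exact absurd (Nat.le_zero.1 (hA b hb).2) (hA b hb).1.pos
  | succ N ih =>
    intro f A hA
    by_cases hf : f = 1
    · subst hf
      have hsub : A ⊆ {1} := fun b hb => mem_singleton.2 (hA b hb).1.one
      refine (sum_le_sum_of_subset_of_nonneg hsub fun b _ _ => ?_).trans ?_
      · exact prod_nonneg fun p _ => by positivity
      · rw [sum_singleton]
        simp [W]
    have hne : ∀ b ∈ A, b ≠ 1 := by
      rintro b hb rfl
      exact hf (hA 1 hb).1.eq_one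
    obtain ⟨q, hq⟩ : ∃ q, q = nx f := ⟨_, rfl⟩
    have hfib : ∑ b ∈ A, W t y b = ∑ β ∈ A.image (fun b => b.factorization q),
        ∑ b ∈ A with b.factorization q = β, W t y b :=
      (sum_fiberwise_of_maps_to (fun b hb => mem_image_of_mem _ hb) _).symm
    have hin : ∀ β ∈ A.image (fun b => b.factorization q),
        ∑ b ∈ A with b.factorization q = β, W t y b ≤ t * y ^ (β / 2) := by
      intro β _
      have h1 : ∑ b ∈ A with b.factorization q = β, W t y b =
          ∑ c ∈ (A.filter fun b => b.factorization q = β).image (fun b => b / q ^ β),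
            t * y ^ (β / 2) * W t y c := by
        rw [sum_image]
        · refine sum_congr rfl fun b hb => ?_
          obtain ⟨hbA, hbβ⟩ := mem_filter.1 hb
          obtain ⟨hqp, hqd⟩ := (hA b hbA).1.nx (hne b hbA)
          rw [← hq] at hqp hqd
          have h2 := prod_ord (fun _ r => t * y ^ (r / 2)) (hA b hbA).1.pos hqp hqd
          rw [hbβ] at h2
          exact h2
        · intro b hb c hc e
          obtain ⟨hbA, hbβ⟩ := mem_filter.1 (mem_coe.1 hb)
          obtain ⟨hcA, hcβ⟩ := mem_filter.1 (mem_coe.1 hc)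
          have h4 : q ^ b.factorization q * (b / q ^ b.factorization q) = b :=
            Nat.ordProj_mul_ordCompl_eq_self b q
          have h5 : q ^ c.factorization q * (c / q ^ c.factorization q) = c :=
            Nat.ordProj_mul_ordCompl_eq_self c q
          rw [hbβ] at h4
          rw [hcβ] at h5
          have e' : b / q ^ β = c / q ^ β := e
          rw [← h4, ← h5, e']
      rw [h1, ← mul_sum]
      have h3 : 0 ≤ t * y ^ (β / 2) := by positivity
      refine (mul_le_mul_of_nonneg_left (ih (red f β) _ ?_) h3).trans (mul_one _).le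
      intro c hc
      obtain ⟨b, hb, rfl⟩ := mem_image.1 hc
      obtain ⟨hbA, hbβ⟩ := mem_filter.1 hb
      have h6 := (hA b hbA).1.red (hne b hbA)
      have h7 := ((hA b hbA).1.lt (hne b hbA)).1
      have h8 := (hA b hbA).2
      rw [← hq, hbβ] at h6 h7
      exact ⟨h6, by omega⟩
    rw [hfib]
    refine (sum_le_sum hin).trans ?_
    rw [← mul_sum]
    refine (mul_le_mul_of_nonneg_left (geo y hy0 hy1 _ ?_) ht.le).trans hty
    intro β hβ
    obtain ⟨b, hb, rfl⟩ := mem_image.1 hβ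
    have h9 := ((hA b hb).1.lt (hne b hb)).2
    obtain ⟨hqp, hqd⟩ := (hA b hb).1.nx (hne b hb)
    rw [← hq] at h9 hqp hqd
    exact ⟨h9, (hA b hb).1.2.1 q (Nat.mem_primeFactors.2 ⟨hqp, hqd, (hA b hb).1.pos⟩)⟩

theorem SolF.three {f : ℚ} {b p : ℕ} (h : SolF f b) (hp : p ∈ b.primeFactors) : 3 ≤ p := by
  have h1 := (Nat.prime_of_mem_primeFactors hp).two_le
  obtain ⟨a, ha⟩ := Odd.of_dvd_nat h.1 (Nat.dvd_of_mem_primeFactors hp)
  omega

theorem SolF.half {f : ℚ} {b x : ℕ} (h : SolF f b) (hx : b ≤ x) :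
    ∑ p ∈ b.primeFactors, b.factorization p / 2 ≤ Nat.log 9 x := by
  have h1 : 9 ^ (∑ p ∈ b.primeFactors, b.factorization p / 2) ≤ b := by
    rw [← prod_pow_eq_pow_sum]
    conv_rhs => rw [← Nat.prod_factorization_pow_eq_self h.pos]
    rw [Finsupp.prod, Nat.support_factorization]
    refine prod_le_prod' fun p hp => ?_
    obtain ⟨c, hc⟩ := h.2.1 p hp
    rw [hc, show (c + c) / 2 = c by omega, ← two_mul, pow_mul]
    refine Nat.pow_le_pow_left ?_ c
    have := h.three hp
    nlinarith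
  exact Nat.le_log_of_pow_le (by norm_num) (h1.trans hx)

/-- The number of solutions up to `x`. -/
theorem count_log (f : ℚ) (x : ℕ) (A : Finset ℕ) (hA : ∀ b ∈ A, SolF f b ∧ b ≤ x) :
    A.card ≤ 2 ^ Nat.log 9 x := by
  have h1 := kraft 1 (1 / 2) one_pos (by norm_num) (by norm_num) (by norm_num) x f A hA
  have h2 : ∀ b ∈ A, (1 / 2 : ℝ) ^ Nat.log 9 x ≤ W 1 (1 / 2) b := by
    intro b hb
    unfold W
    simp only [one_mul]
    rw [prod_pow_eq_pow_sum]
    exact pow_le_pow_of_le_one (by norm_num) (by norm_num) ((hA b hb).1.half (hA b hb).2)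
  have h3 : (A.card : ℝ) * (1 / 2 : ℝ) ^ Nat.log 9 x ≤ 1 := by
    have := sum_le_sum h2
    rw [sum_const, nsmul_eq_mul] at this
    exact this.trans h1
  have h4 : (A.card : ℝ) ≤ 2 ^ Nat.log 9 x := by
    have h5 : (0 : ℝ) < 2 ^ Nat.log 9 x := by positivity
    have h6 : (1 / 2 : ℝ) ^ Nat.log 9 x = 1 / 2 ^ Nat.log 9 x := by rw [one_div_pow]
    rw [h6, mul_one_div, div_le_one h5] at h3
    exact h3
  exact_mod_cast h4

/-- Lower bound for the weight. -/
theorem weight_low (ε t : ℝ) (hε : 0 < ε) (ht : 0 < t) : ∃ C : ℝ, 0 < C ∧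
    ∀ (f : ℚ) (b : ℕ), SolF f b → C * (b : ℝ) ^ (-ε) ≤ W t ((9 : ℝ) ^ (-(ε / 2))) b := by
  obtain ⟨m, hm0, hm1, hmt⟩ : ∃ m : ℝ, 0 < m ∧ m ≤ 1 ∧ m ≤ t :=
    ⟨min t 1, lt_min ht one_pos, min_le_right _ _, min_le_left _ _⟩
  obtain ⟨P0, hP0⟩ : ∃ P0 : ℕ, 1 ≤ P0 ∧ (P0 : ℝ) ^ (-(ε / 2)) ≤ m := by
    have h1 := (tendsto_rpow_neg_atTop (half_pos hε)).comp tendsto_natCast_atTop_atTop
    have h2 := (h1.eventually (ge_mem_nhds hm0)).and (Filter.eventually_ge_atTop 1)
    obtain ⟨P0, h3, h4⟩ := h2.exists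
    exact ⟨P0, h4, h3⟩
  refine ⟨m ^ P0, pow_pos hm0 _, fun f b hb => ?_⟩
  have hb0 := hb.pos
  have hbp : (b : ℝ) ^ (-ε) = ∏ p ∈ b.primeFactors, ((p : ℝ) ^ b.factorization p) ^ (-ε) := by
    rw [Real.finset_prod_rpow _ _ (fun p _ => by positivity)]
    congr 1
    conv_lhs => rw [← Nat.prod_factorization_pow_eq_self hb0]
    rw [Finsupp.prod, Nat.support_factorization]
    push_cast
    rfl
  have hmP : m ^ P0 ≤ ∏ p ∈ b.primeFactors, (if p < P0 then m else 1) := by
    rw [prod_ite, prod_const, prod_const_one, mul_one]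
    refine pow_le_pow_of_le_one hm0.le hm1 ?_
    have h1 : (b.primeFactors.filter fun p => p < P0) ⊆ range P0 := fun p hp =>
      mem_range.2 (mem_filter.1 hp).2
    have h2 := card_le_card h1
    rwa [card_range] at h2
  rw [hbp]
  refine (mul_le_mul_of_nonneg_right hmP (prod_nonneg fun p _ => by positivity)).trans ?_
  rw [← prod_mul_distrib, W]
  refine prod_le_prod (fun p _ => ?_) fun p hp => ?_
  · have : (0 : ℝ) ≤ if p < P0 then m else 1 := by split_ifs <;> positivity
    positivity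
  obtain ⟨c, hc⟩ := hb.2.1 p hp
  have hp3 := hb.three hp
  have hc1 : 1 ≤ c := by
    have := (Nat.prime_of_mem_primeFactors hp).factorization_pos_of_dvd hb0
      (Nat.dvd_of_mem_primeFactors hp)
    omega
  have hy1 : (9 : ℝ) ^ c ≤ (p : ℝ) ^ (c + c) := by
    rw [← two_mul, pow_mul]
    refine pow_le_pow_left₀ (by norm_num) ?_ c
    have : (3 : ℝ) ≤ p := by exact_mod_cast hp3
    nlinarith
  have hpy : (p : ℝ) ≤ (p : ℝ) ^ (c + c) := by
    have : (1 : ℝ) ≤ p := by exact_mod_cast (by omega : 1 ≤ p)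
    exact le_self_pow₀ this (by omega)
  have hY : (0 : ℝ) < (p : ℝ) ^ (c + c) := by
    have : (0 : ℝ) < p := by exact_mod_cast (by omega : 0 < p)
    positivity
  obtain ⟨Y, hYdef⟩ : ∃ Y, Y = (p : ℝ) ^ (c + c) := ⟨_, rfl⟩
  rw [hc, show (c + c) / 2 = c by omega]
  rw [← hYdef] at hy1 hpy hY ⊢
  have hz : ((9 : ℝ) ^ (-(ε / 2))) ^ c = ((9 : ℝ) ^ c) ^ (-(ε / 2)) := by
    rw [← Real.rpow_natCast, ← Real.rpow_mul (by norm_num), ← Real.rpow_natCast,
      ← Real.rpow_mul (by norm_num), mul_comm]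
  have hz2 : Y ^ (-(ε / 2)) ≤ ((9 : ℝ) ^ (-(ε / 2))) ^ c := by
    rw [hz]
    exact Real.rpow_le_rpow_of_nonpos (by positivity) hy1 (by linarith)
  have hsq : Y ^ (-ε) = Y ^ (-(ε / 2)) * Y ^ (-(ε / 2)) := by
    rw [← Real.rpow_add hY]
    congr 1
    ring
  have hYn : 0 < Y ^ (-(ε / 2)) := Real.rpow_pos_of_pos hY _
  have hY1 : Y ^ (-(ε / 2)) ≤ 1 := by
    refine Real.rpow_le_one_of_one_le_of_nonpos ?_ (by linarith)
    have : (1 : ℝ) ≤ p := by exact_mod_cast (by omega : 1 ≤ p)
    exact this.trans hpy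
  have hbig : m * Y ^ (-(ε / 2)) ≤ t * ((9 : ℝ) ^ (-(ε / 2))) ^ c :=
    mul_le_mul hmt hz2 hYn.le ht.le
  refine le_trans ?_ hbig
  rw [hsq]
  split_ifs with hlt
  · refine mul_le_mul_of_nonneg_left ?_ hm0.le
    exact mul_le_of_le_one_left hYn.le hY1
  · rw [one_mul]
    refine mul_le_mul_of_nonneg_right ?_ hYn.le
    refine le_trans ?_ hP0.2
    refine Real.rpow_le_rpow_of_nonpos ?_ ?_ (by linarith)
    · exact_mod_cast hP0.1
    · refine le_trans ?_ hpy
      exact_mod_cast not_lt.1 hlt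

/-- The number of solutions up to `x` is `O(x^ε)`. -/
theorem count_eps (ε : ℝ) (hε : 0 < ε) : ∃ C : ℝ, 0 < C ∧ ∀ (f : ℚ) (x : ℕ) (A : Finset ℕ),
    (∀ b ∈ A, SolF f b ∧ b ≤ x) → (A.card : ℝ) ≤ C * (x : ℝ) ^ ε := by
  obtain ⟨y, hy⟩ : ∃ y : ℝ, y = (9 : ℝ) ^ (-(ε / 2)) := ⟨_, rfl⟩
  have hy0 : 0 < y := by
    rw [hy]
    positivity
  have hy1 : y < 1 := by
    rw [hy]
    exact Real.rpow_lt_one_of_one_lt_of_neg (by norm_num) (by linarith)
  have ht : 0 < (1 - y) / y := div_pos (by linarith) hy0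
  obtain ⟨C, hC, hw⟩ := weight_low ε ((1 - y) / y) hε ht
  rw [← hy] at hw
  refine ⟨1 / C, by positivity, fun f x A hA => ?_⟩
  have hty : (1 - y) / y * (y / (1 - y)) ≤ 1 := by
    have h1 : (1 - y) ≠ 0 := by linarith
    field_simp
    exact le_refl _
  have h1 := kraft ((1 - y) / y) y ht hy0 hy1 hty x f A hA
  rcases A.eq_empty_or_nonempty with he | ⟨b0, hb0⟩
  · subst he
    rw [card_empty]
    push_cast
    positivity
  have hx : (0 : ℝ) < x := by
    have h2 := (hA b0 hb0).1.pos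
    have h3 := (hA b0 hb0).2
    exact_mod_cast (by omega : 0 < x)
  have h2 : ∀ b ∈ A, C * (x : ℝ) ^ (-ε) ≤ W ((1 - y) / y) y b := by
    intro b hb
    refine le_trans (mul_le_mul_of_nonneg_left ?_ hC.le) (hw f b (hA b hb).1)
    refine Real.rpow_le_rpow_of_nonpos ?_ ?_ (by linarith)
    · exact_mod_cast Nat.pos_of_ne_zero (hA b hb).1.pos
    · exact_mod_cast (hA b hb).2
  have h3 : (A.card : ℝ) * (C * (x : ℝ) ^ (-ε)) ≤ 1 := by
    have := sum_le_sum h2
    rw [sum_const, nsmul_eq_mul] at this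
    exact this.trans h1
  have hxe : 0 < (x : ℝ) ^ ε := Real.rpow_pos_of_pos hx _
  rw [Real.rpow_neg hx.le] at h3
  have h4 : (A.card : ℝ) * C ≤ (x : ℝ) ^ ε := by
    have h5 : (A.card : ℝ) * (C * ((x : ℝ) ^ ε)⁻¹) = ((A.card : ℝ) * C) / (x : ℝ) ^ ε := by
      field_simp
    rw [h5, div_le_one hxe] at h3
    exact h3
  rw [one_div, inv_mul_eq_div, le_div_iff₀ hC]
  exact h4

end Pool.Agent.AltSig37
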