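import Pool.Agent.AltSig37.Core

/-!
MP_d358e4_nt (helper37): the function `σ̃` and congruences.
-/

set_option autoImplicit false

namespace Pool.Agent.AltSig37

open Finset

/-- `σ̃(p^r) = p^r - p^(r-1) + p^(r-2) - ... + (-1)^r`. -/
def sp (p r : ℕ) : ℤ := ∑ j ∈ Finset.range (r + 1), (-1) ^ j * (p : ℤ) ^ (r - j)

/-- The multiplicative extension: `σ̃(n)` is the product of `σ̃(p^r)` over the prime powers `p^r`
exactly dividing `n`. -/
def sig (n : ℕ) : ℤ := ∏ p ∈ n.primeFactors, sp p (n.factorization p)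

theorem sp_succ (p r : ℕ) : sp p (r + 1) = p * sp p r + (-1) ^ (r + 1) := by
  unfold sp
  rw [sum_range_succ, Nat.sub_self, pow_zero, mul_one, mul_sum]
  congr 1
  refine sum_congr rfl fun j hj => ?_
  have h1 : j ≤ r := Nat.lt_succ_iff.1 (mem_range.1 hj)
  rw [show r + 1 - j = (r - j) + 1 by omega, pow_succ]
  ring

theorem sp_mul (p r : ℕ) : sp p r * (p + 1) = p * p ^ r + (-1) ^ r := by
  induction r with
  | zero => simp [sp]
  | succ r ih =>
    rw [sp_succ]
    have : (↑p * sp p r + (-1) ^ (r + 1)) * ((p : ℤ) + 1) =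
        p * (sp p r * (p + 1)) + (-1) ^ (r + 1) * (p + 1) := by ring
    rw [this, ih]
    ring

theorem sp_cast (N p r : ℕ) : ((sp p r : ℤ) : ZMod N) =
    ∑ j ∈ Finset.range (r + 1), (-1) ^ j * (p : ZMod N) ^ (r - j) := by
  unfold sp
  push_cast
  rfl

theorem sp_neg (N p r : ℕ) (hr : Even r) (h : (p : ZMod N) = -1) :
    ((sp p r : ℤ) : ZMod N) = r + 1 := by
  rw [sp_cast, h]
  have h1 : ∀ j ∈ Finset.range (r + 1), (-1 : ZMod N) ^ j * (-1) ^ (r - j) = 1 := by
    intro j hj
    have h2 : j ≤ r := Nat.lt_succ_iff.1 (mem_range.1 hj)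
    rw [← pow_add, Nat.add_sub_cancel' h2]
    exact hr.neg_one_pow
  rw [sum_congr rfl h1, sum_const, card_range, nsmul_eq_mul, mul_one]
  push_cast
  rfl

theorem sp_one (N p r : ℕ) (hr : Even r) (h : (p : ZMod N) = 1) :
    ((sp p r : ℤ) : ZMod N) = 1 := by
  rw [sp_cast, h]
  have h1 : ∀ j ∈ Finset.range (r + 1), (-1 : ZMod N) ^ j * 1 ^ (r - j) = (-1) ^ j := by
    intro j _
    rw [one_pow, mul_one]
  rw [sum_congr rfl h1, neg_one_geom_sum, if_neg]
  rw [Nat.even_add_one]
  exact not_not.2 hr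

section

variable {n K : ℕ} (hn : Odd n) (h : (n : ℤ) = K * sig n)

include hn h

theorem sp_odd {p : ℕ} (hp : p ∈ n.primeFactors) : Odd (sp p (n.factorization p)) := by
  have h1 : Odd (n : ℤ) := by exact_mod_cast hn
  rw [h] at h1
  have h2 := (Int.odd_mul.1 h1).2
  obtain ⟨c, hc⟩ : sp p (n.factorization p) ∣ sig n := dvd_prod_of_mem _ hp
  rw [hc] at h2
  exact (Int.odd_mul.1 h2).1

theorem exp_even {p : ℕ} (hp : p ∈ n.primeFactors) : Even (n.factorization p) := by
  by_contra hodd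
  rw [Nat.not_even_iff_odd] at hodd
  have hpo : Odd p := Odd.of_dvd_nat hn (Nat.dvd_of_mem_primeFactors hp)
  have h1 : ((sp p (n.factorization p) : ℤ) : ZMod 2) = 0 := by
    rw [sp_cast]
    have h2 : (p : ZMod 2) = -1 := by
      have : (p : ZMod 2) = 1 := (ZMod.natCast_eq_one_iff_odd).2 hpo
      rw [this]
      decide
    have h3 : ∀ j ∈ Finset.range (n.factorization p + 1),
        (-1 : ZMod 2) ^ j * (-1) ^ (n.factorization p - j) = 1 := by
      intro j hj
      have h4 : j ≤ n.factorization p := Nat.lt_succ_iff.1 (mem_range.1 hj)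
      rw [← pow_add, Nat.add_sub_cancel' h4, hodd.neg_one_pow]
      decide
    rw [h2, sum_congr rfl h3, sum_const, card_range, nsmul_eq_mul, mul_one]
    exact (ZMod.natCast_eq_zero_iff_even).2 (Odd.add_one hodd)
  have h5 : (2 : ℤ) ∣ sp p (n.factorization p) := (ZMod.intCast_zmod_eq_zero_iff_dvd _ 2).1 h1
  have h6 := sp_odd hn h hp
  rw [← Int.not_even_iff_odd] at h6
  exact h6 (even_iff_two_dvd.2 h5)

theorem dat : Dat n.primeFactors (fun p => n.factorization p)
    (fun p => (sp p (n.factorization p)).toNat) K n := by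
  have hn0 : n ≠ 0 := by
    rintro rfl
    simp at hn
  have hpos : ∀ p ∈ n.primeFactors, 0 < sp p (n.factorization p) := by
    intro p hp
    have h1 := sp_mul p (n.factorization p)
    rw [(exp_even hn h hp).neg_one_pow] at h1
    by_contra h2
    have h3 : sp p (n.factorization p) * ((p : ℤ) + 1) ≤ 0 :=
      mul_nonpos_of_nonpos_of_nonneg (not_lt.1 h2) (by positivity)
    have h4 : (0 : ℤ) ≤ (p : ℤ) * p ^ (n.factorization p) := by positivity
    linarith
  refine ⟨fun p hp => Nat.prime_of_mem_primeFactors hp, fun p hp => ?_, fun p hp => ?_,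
    fun p hp => ?_, ?_, ?_⟩
  · exact Nat.odd_iff.1 (Odd.of_dvd_nat hn (Nat.dvd_of_mem_primeFactors hp))
  · exact (Nat.prime_of_mem_primeFactors hp).factorization_pos_of_dvd hn0
      (Nat.dvd_of_mem_primeFactors hp)
  · have h1 := sp_mul p (n.factorization p)
    rw [(exp_even hn h hp).neg_one_pow] at h1
    have h2 : ((sp p (n.factorization p)).toNat : ℤ) = sp p (n.factorization p) :=
      Int.toNat_of_nonneg (hpos p hp).le
    zify
    rw [h2]
    exact h1
  · exact (Nat.prod_factorization_pow_eq_self hn0).symm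
  · zify
    rw [h, sig]
    congr 1
    push_cast
    refine prod_congr rfl fun p hp => ?_
    exact (Int.toNat_of_nonneg (hpos p hp).le).symm

theorem bound : n ≤ (n.primeFactors.card + 1) ^ (4 ^ n.primeFactors.card - 1) :=
  (dat hn h).bound

theorem mod_four : (n : ZMod 4) = 1 := by
  have hn0 : n ≠ 0 := by
    rintro rfl
    simp at hn
  have h1 : n = ∏ p ∈ n.primeFactors, p ^ n.factorization p :=
    (Nat.prod_factorization_pow_eq_self hn0).symm
  have h2 : (n : ZMod 4) = ∏ p ∈ n.primeFactors, (p : ZMod 4) ^ n.factorization p := by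
    conv_lhs => rw [h1]
    push_cast
    rfl
  rw [h2]
  refine prod_eq_one fun p hp => ?_
  obtain ⟨m, hm⟩ := exp_even hn h hp
  have hpo : Odd p := Odd.of_dvd_nat hn (Nat.dvd_of_mem_primeFactors hp)
  rw [hm, ← two_mul, pow_mul]
  have h3 : (p : ZMod 4) ^ 2 = 1 := by
    obtain ⟨a, ha⟩ := hpo
    have h4 : p % 4 = 1 ∨ p % 4 = 3 := by omega
    have h5 : (p : ZMod 4) = ((p % 4 : ℕ) : ZMod 4) := (ZMod.natCast_mod p 4).symm
    rcases h4 with h4 | h4 <;> rw [h5, h4] <;> decide
  rw [h3, one_pow]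

end

section

variable {n : ℕ} (hn : Odd n) (h : (n : ℤ) = 3 * sig n)

include hn h

/-- The exponents of the primes `3 mod 4`. -/
theorem card_odd : Odd ((n.primeFactors.filter fun p =>
    p % 4 = 3 ∧ n.factorization p % 4 = 2).card) := by
  have h' : (n : ℤ) = (3 : ℕ) * sig n := h
  have h1 := mod_four hn h'
  have h2 : ((sig n : ℤ) : ZMod 4) = (-1) ^ ((n.primeFactors.filter fun p =>
      p % 4 = 3 ∧ n.factorization p % 4 = 2).card) := by
    rw [← prod_const, prod_filter, sig]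
    push_cast
    refine prod_congr rfl fun p hp => ?_
    have hev := exp_even hn h' hp
    have hpo : Odd p := Odd.of_dvd_nat hn (Nat.dvd_of_mem_primeFactors hp)
    have h5 : (p : ZMod 4) = ((p % 4 : ℕ) : ZMod 4) := (ZMod.natCast_mod p 4).symm
    have h4 : p % 4 = 1 ∨ p % 4 = 3 := by
      obtain ⟨a, ha⟩ := hpo
      omega
    rcases h4 with h4 | h4
    · rw [if_neg (by omega), sp_one 4 p _ hev (by rw [h5, h4]; rfl)]
    · rw [sp_neg 4 p _ hev (by rw [h5, h4]; rfl)]
      have h6 : ((n.factorization p : ℕ) : ZMod 4) =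
          ((n.factorization p % 4 : ℕ) : ZMod 4) := (ZMod.natCast_mod _ 4).symm
      have h7 : n.factorization p % 4 = 0 ∨ n.factorization p % 4 = 2 := by
        obtain ⟨a, ha⟩ := hev
        omega
      rcases h7 with h7 | h7
      · rw [if_neg (by omega), h6, h7]
        rfl
      · rw [if_pos ⟨h4, h7⟩, h6, h7]
        rfl
  by_contra hc
  rw [Nat.not_odd_iff_even] at hc
  rw [hc.neg_one_pow] at h2
  have h3 : ((n : ℤ) : ZMod 4) = 3 * 1 := by
    rw [h]
    push_cast
    rw [h2]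
  have h4 : (n : ZMod 4) = 3 * 1 := by exact_mod_cast h3
  rw [h1] at h4
  revert h4
  decide

theorem not_fourth : ¬ ∃ m : ℕ, n = m ^ 4 := by
  rintro ⟨m, rfl⟩
  have h1 := card_odd hn h
  have h2 : ((m ^ 4).primeFactors.filter fun p =>
      p % 4 = 3 ∧ (m ^ 4).factorization p % 4 = 2) = ∅ := by
    refine filter_eq_empty_iff.2 fun p _ hp => ?_
    have h3 : (m ^ 4).factorization p = 4 * m.factorization p := by
      rw [Nat.factorization_pow]
      rfl
    rw [h3] at hp
    omega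
  rw [h2, card_empty] at h1
  exact absurd h1 (by decide)

theorem exists_two_mod_three : ∃ p : ℕ, p.Prime ∧ p ∣ n ∧ p % 3 = 2 ∧
    3 ∣ n.factorization p + 1 := by
  have h' : (n : ℤ) = (3 : ℕ) * sig n := h
  have hn0 : n ≠ 0 := by
    rintro rfl
    simp at hn
  have h3n : 3 ∣ n := by
    have : (3 : ℤ) ∣ (n : ℤ) := h ▸ Dvd.intro _ rfl
    exact_mod_cast this
  have h3m : 3 ∈ n.primeFactors := Nat.mem_primeFactors.2 ⟨Nat.prime_three, h3n, hn0⟩
  have h9 : 3 ^ 2 ∣ n := by
    refine (Nat.Prime.pow_dvd_iff_le_factorization Nat.prime_three hn0).2 ?_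
    have h1 := exp_even hn h' h3m
    have h2 := (dat hn h').rpos 3 h3m
    obtain ⟨a, ha⟩ := h1
    omega
  have h3s : (3 : ℤ) ∣ sig n := by
    obtain ⟨c, hc⟩ := h9
    refine ⟨c, ?_⟩
    have : (3 : ℤ) * sig n = 3 * (3 * c) := by
      rw [← h, hc]
      push_cast
      ring
    linarith
  have hp3 : Prime (3 : ℤ) := Int.prime_three
  obtain ⟨p, hp, hd⟩ := (hp3.dvd_finsetProd_iff _).1 h3s
  refine ⟨p, Nat.prime_of_mem_primeFactors hp, Nat.dvd_of_mem_primeFactors hp, ?_⟩
  have hev := exp_even hn h' hp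
  have h0 : ((sp p (n.factorization p) : ℤ) : ZMod 3) = 0 :=
    (ZMod.intCast_zmod_eq_zero_iff_dvd _ 3).2 hd
  have h5 : (p : ZMod 3) = ((p % 3 : ℕ) : ZMod 3) := (ZMod.natCast_mod p 3).symm
  have h4 : p % 3 = 0 ∨ p % 3 = 1 ∨ p % 3 = 2 := by omega
  rcases h4 with h4 | h4 | h4
  · exfalso
    have h6 := congrArg (fun z : ℤ => (z : ZMod 3)) (sp_mul p (n.factorization p))
    push_cast at h6
    rw [h0, h5, h4, hev.neg_one_pow] at h6
    revert h6
    simp
  · exfalso
    rw [sp_one 3 p _ hev (by rw [h5, h4]; rfl)] at h0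
    revert h0
    decide
  · refine ⟨h4, ?_⟩
    rw [sp_neg 3 p _ hev (by rw [h5, h4]; rfl)] at h0
    have h6 : ((n.factorization p + 1 : ℕ) : ZMod 3) = 0 := by
      push_cast
      exact h0
    exact (ZMod.natCast_eq_zero_iff _ 3).1 h6

/-- Every prime factor `p = 2 mod 3` needs an exponent with a prime factor `≥ 5`. -/
theorem exists_five {p : ℕ} (hp : p.Prime) (hpn : p ∣ n) (hp2 : p % 3 = 2) :
    ∃ q : ℕ, q.Prime ∧ q ∣ n ∧ ∃ l : ℕ, l.Prime ∧ 5 ≤ l ∧ l ∣ n.factorization q + 1 := by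
  have h' : (n : ℤ) = (3 : ℕ) * sig n := h
  have hfact : Fact p.Prime := ⟨hp⟩
  have hpo : Odd p := Odd.of_dvd_nat hn hpn
  have hp5 : 5 ≤ p := by
    have := hp.two_le
    obtain ⟨a, ha⟩ := hpo
    omega
  have hds : (p : ℤ) ∣ sig n := by
    have h1 : (p : ℤ) ∣ 3 * sig n := by
      rw [← h]
      exact_mod_cast hpn
    rcases (Nat.prime_iff_prime_int.1 hp).dvd_or_dvd h1 with h2 | h2
    · have h3 : p ∣ 3 := by exact_mod_cast h2
      have := Nat.le_of_dvd (by norm_num) h3
      omega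
    · exact h2
  obtain ⟨q, hq, hd⟩ := ((Nat.prime_iff_prime_int.1 hp).dvd_finsetProd_iff _).1 hds
  refine ⟨q, Nat.prime_of_mem_primeFactors hq, Nat.dvd_of_mem_primeFactors hq, ?_⟩
  have hev := exp_even hn h' hq
  by_contra hno
  have hno' : ∀ l : ℕ, l.Prime → 5 ≤ l → ¬ l ∣ n.factorization q + 1 :=
    fun l h1 h2 h3 => hno ⟨l, h1, h2, h3⟩
  have h0 : ((sp q (n.factorization q) : ℤ) : ZMod p) = 0 :=
    (ZMod.intCast_zmod_eq_zero_iff_dvd _ p).2 hd
  have hmul := congrArg (fun z : ℤ => (z : ZMod p)) (sp_mul q (n.factorization q))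
  push_cast at hmul
  rw [h0, zero_mul, hev.neg_one_pow] at hmul
  have hpow : (-(q : ZMod p)) ^ (n.factorization q + 1) = 1 := by
    have h1 : Odd (n.factorization q + 1) := hev.add_one
    rw [h1.neg_pow, pow_succ']
    linear_combination hmul
  have hne : (-(q : ZMod p)) ≠ 0 := by
    intro h1
    rw [h1, zero_pow (Nat.succ_ne_zero _)] at hpow
    exact zero_ne_one hpow
  have hord1 : orderOf (-(q : ZMod p)) ∣ n.factorization q + 1 := orderOf_dvd_of_pow_eq_one hpow
  have hord2 : orderOf (-(q : ZMod p)) ∣ p - 1 :=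
    orderOf_dvd_of_pow_eq_one (ZMod.pow_card_sub_one_eq_one hne)
  have hcop : Nat.Coprime (n.factorization q + 1) (p - 1) := by
    refine Nat.coprime_of_dvd fun l hl h1 h2 => ?_
    have hl2 : l ≠ 2 := by
      rintro rfl
      obtain ⟨a, ha⟩ := hev
      omega
    have hl3 : l ≠ 3 := by
      rintro rfl
      omega
    have hl4 : l ≠ 4 := by
      rintro rfl
      exact absurd hl (by decide)
    have := hl.two_le
    exact hno' l hl (by omega) h1
  have hone : orderOf (-(q : ZMod p)) = 1 := Nat.eq_one_of_dvd_coprimes hcop hord1 hord2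
  have hq1 : (-(q : ZMod p)) = 1 := orderOf_eq_one_iff.1 hone
  have hq2 : (q : ZMod p) = -1 := by rw [← hq1, neg_neg]
  rw [sp_neg p q _ hev hq2] at h0
  have h6 : ((n.factorization q + 1 : ℕ) : ZMod p) = 0 := by
    push_cast
    exact h0
  exact hno' p hp hp5 ((ZMod.natCast_eq_zero_iff _ p).1 h6)

end

end Pool.Agent.AltSig37
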